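import Pool.Agent.H93.EN.Targets

/-!
# Bright corners: targets of the modules, parts G (local structure), H (orbits), I (corollaries)
-/

namespace Pool.Agent.H93.EN

open MeasureTheory Set Metric Filter Topology Pool.Agent.H93.BL
open scoped ContDiff

/-! ## G. Local structure and the system of local extensions -/

/-- different sides are far from each other, relative to the distance to the vertices -/
def T_LS1 : Prop := ∀ (ι : Type) [Finite ι] (P : Polygon ι), ∃ c > (0 : ℝ), ∀ (i j : ι),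
  Disjoint (openSegment ℝ (P.p i) (P.q i)) (segment ℝ (P.p j) (P.q j)) →
  ∀ x ∈ openSegment ℝ (P.p i) (P.q i), ∀ y ∈ segment ℝ (P.p j) (P.q j),
    c * infDist x (VV P) ≤ dist x y

/-- charts at inner points of sides -/
def T_LSS : Prop := ∀ (ι : Type) [Finite ι] (P : Polygon ι), ∃ c > (0 : ℝ), ∀ (j : ι),
  ∀ x ∈ openSegment ℝ (P.p j) (P.q j), Chart P x (c * infDist x (VV P)) (some j)

/-- charts everywhere -/
def T_LS : Prop := ∀ (ι : Type) [Finite ι] (P : Polygon ι), ∃ κ, LS P κ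

/-- elementary properties of charts and of the reflection -/
def T_CHT : Prop := ∀ (ι : Type) (P : Polygon ι),
  (∀ (x x' : ℂ) (R R' : ℝ) (τ : Option ι), Chart P x R τ → dist x' x + R' ≤ R →
    (∀ j, τ = some j → 0 ≤ sg P j x') → Chart P x' R' τ) ∧
  (∀ (j : ι) (y z : ℂ), sg P j (P.aff j y) = -sg P j y ∧ dist (P.aff j y) (P.aff j z) = dist y z ∧
    (0 ≤ sg P j z → sg P j y ≤ 0 → dist (P.aff j y) z ≤ dist y z)) ∧
  (∀ (x : ℂ) (R : ℝ) (j : ι), x ∈ P.Ω → 0 < R → Chart P x R (some j) → 0 < sg P j x) ∧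
  (∀ (x y : ℂ) (R : ℝ) (τ : Option ι), x ∈ P.Ω → Chart P x R τ → y ∈ ball x R →
    (segment ℝ x y ⊆ P.Ω ↔ ∀ j, τ = some j → 0 < sg P j y)) ∧
  (∀ j : ι, volume {y : ℂ | sg P j y = 0} = 0)

/-- two charts at the same point of the table give the same extension -/
def T_AG : Prop := ∀ (ι : Type) (P : Polygon ι) (F : ℂ → ℂ → ℝ) (x : ℂ) (R : ℝ)
  (τ τ' : Option ι), x ∈ P.Ω → 0 < R → Chart P x R τ → Chart P x R τ' →
    Agr (Phi P F τ) (Phi P F τ') x R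

/-- invariance of the extension -/
def T_LI : Prop := ∀ (ι : Type) (P : Polygon ι) (F : ℂ → ℂ → ℝ), InvF P F → ∀ (x : ℂ) (R : ℝ)
  (τ : Option ι), Chart P x R τ → Inv (Phi P F τ) x R

/-- mass of the extension -/
def T_MU : Prop := ∀ (ι : Type) (P : Polygon ι) (F : ℂ → ℂ → ℝ), InvF P F → ∀ (x : ℂ) (R : ℝ)
  (τ : Option ι), x ∈ P.Ω → Chart P x R τ → ∀ δ ∈ Ioc 0 R,
    ∫ y in ball x δ, av (Phi P F τ y) ≤ 2 * ∫ y in ball x δ ∩ P.Ω, av (F y)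

/-- mass of the bump on the visible side -/
def T_LW : Prop := ∀ (ι : Type) (P : Polygon ι) (y : ℂ) (R : ℝ) (τ : Option ι), y ∈ P.Ω →
  Chart P y R τ → ∀ δ ∈ Ioc 0 R, 1 / 2 ≤ ∫ x in {x | segment ℝ x y ⊆ P.Ω}, chi δ (x - y)

/-- the extensions are bounded and measurable -/
def T_BD : Prop := ∀ (ι : Type) (P : Polygon ι) (F : ℂ → ℂ → ℝ), InvF P F → ∀ τ : Option ι,
  Bd (Phi P F τ)

/-- the system of local extensions of an invariant function; all vertices are bad points -/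
def T_DAT : Prop := ∀ (ι : Type) [Finite ι] (P : Polygon ι) (F : ℂ → ℂ → ℝ), InvF P F →
  ∃ D : Dat ι, D.P = P ∧ D.F = F ∧ D.B = VV P

/-! ## H. Orbits -/

/-- continuity of the billiard map -/
def T_SC : Prop := ∀ (ι : Type) [Finite ι] (P : Polygon ι) (z z' : ι × ℝ × ℝ), P.Step z z' →
  ∀ ε > (0 : ℝ), ∃ η > (0 : ℝ), ∀ s φ : ℝ, |s - z.2.1| < η → |φ - z.2.2| < η →
    ∃ z₁, P.Step (z.1, s, φ) z₁ ∧ z₁.1 = z'.1 ∧ |z₁.2.1 - z'.2.1| < ε ∧ |z₁.2.2 - z'.2.2| < ε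

/-- reaching `E` or `U` is an open condition on phase points -/
def T_PRO : Prop := ∀ (ι : Type) [Finite ι] (P : Polygon ι) (E : Set ι) (U : Set ℂ), IsOpen U →
  U ⊆ P.Ω → ∀ z, P.Phase z → PR P E U z → ∃ η > (0 : ℝ), ∀ s φ : ℝ, |s - z.2.1| < η →
    |φ - z.2.2| < η → P.Phase (z.1, s, φ) ∧ PR P E U (z.1, s, φ)

/-- continuity of the first hit from inner points -/
def T_HC : Prop := ∀ (ι : Type) [Finite ι] (P : Polygon ι) (y w : ℂ) (z : ι × ℝ × ℝ) (t : ℝ),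
  y ∈ P.Ω → ‖w‖ = 1 → P.Phase z → 0 < t → P.pos z = y + (t : ℂ) * w →
  (∀ r ∈ Ioo 0 t, y + (r : ℂ) * w ∈ P.Ω) → P.dir z = P.refl z.1 w →
  ∀ ε > (0 : ℝ), ∃ η > (0 : ℝ), ∀ y' w', dist y' y < η → ‖w'‖ = 1 → dist w' w < η →
    ∃ s φ t' : ℝ, |s - z.2.1| < ε ∧ |φ - z.2.2| < ε ∧ 0 < t' ∧ P.Phase (z.1, s, φ) ∧
      P.pos (z.1, s, φ) = y' + (t' : ℂ) * w' ∧ (∀ r ∈ Ioo 0 t', y' + (r : ℂ) * w' ∈ P.Ω) ∧
      P.dir (z.1, s, φ) = P.refl z.1 w'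

/-- reaching is an open condition on states -/
def T_RO : Prop := ∀ (ι : Type) [Finite ι] (P : Polygon ι) (E : Set ι) (U : Set ℂ), IsOpen U →
  U ⊆ P.Ω → ∀ y ∈ P.Ω, ∀ w, ‖w‖ = 1 → RU P E U y w → ∃ ε > (0 : ℝ), ∀ y' w', dist y' y < ε →
    ‖w'‖ = 1 → dist w' w < ε → RU P E U y' w'

/-- moving along a segment in the table; `y` may be a boundary point in the first part -/
def T_RF : Prop := ∀ (ι : Type) (P : Polygon ι) (E : Set ι) (U : Set ℂ) (y w : ℂ) (t : ℝ),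
  0 < t → ‖w‖ = 1 → (∀ r ∈ Ioc 0 t, y + (r : ℂ) * w ∈ P.Ω) →
  (RU P E U (y + (t : ℂ) * w) w → RU P E U y w) ∧
  (y ∈ P.Ω → RU P E U y w → RU P E U (y + (t : ℂ) * w) w ∨ Sg P U (y + (t : ℂ) * w) (-w))

/-- the indicator function is measurable -/
def T_INM : Prop := ∀ (ι : Type) [Finite ι] (P : Polygon ι) (E : Set ι) (U : Set ℂ), IsOpen U →
  U ⊆ P.Ω → Measurable (Function.uncurry (FE P E U))

/-- crossing a side -/
def T_INC : Prop := ∀ (ι : Type) (P : Polygon ι) (E : Set ι) (U : Set ℂ), U ⊆ P.Ω →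
  ∀ (j : ι) (y w : ℂ) (t s : ℝ), ‖w‖ = 1 → 0 < t → 0 < s → ip w (P.n j) < 0 →
    (∀ r ∈ Ico 0 t, y + (r : ℂ) * w ∈ P.Ω) →
    y + (t : ℂ) * w ∈ openSegment ℝ (P.p j) (P.q j) →
    (∀ r ∈ Ioc 0 s, y + (t : ℂ) * w + (r : ℂ) * P.refl j w ∈ P.Ω) →
    FE P E U (y + (t : ℂ) * w + (s : ℂ) * P.refl j w) (P.refl j w) = FE P E U y w

/-- the indicator function is invariant -/
def T_INF : Prop := ∀ (ι : Type) [Finite ι] (P : Polygon ι) (E : Set ι) (U : Set ℂ), IsOpen U →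
  U ⊆ P.Ω → InvF P (FE P E U)

/-- reaching from a corner point is stable -/
def T_OPV : Prop := ∀ (ι : Type) [Finite ι] (P : Polygon ι) (E : Set ι) (U : Set ℂ), IsOpen U →
  U ⊆ P.Ω → ∀ (i j : ι) (α φ : ℝ), CornerAt P i j α → φ ∈ Ioo 0 α →
    RU P E U (P.p j) (uv P j φ) → ∃ ε > (0 : ℝ),
      (∀ s ∈ Ioo 0 ε, ∀ ψ ∈ Ioo (φ - ε) (φ + ε), ∀ w : ℂ, ‖w‖ = 1 → ‖w - uv P j φ‖ < ε →
        RU P E U (pt P j s ψ) w) ∧
      ∀ ψ ∈ Ioo (φ - ε) (φ + ε), ψ ∈ Ioo 0 α ∧ RU P E U (P.p j) (uv P j ψ)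

/-- near a side in `E` -/
def T_FEC : Prop := ∀ (ι : Type) (P : Polygon ι) (E : Set ι) (U : Set ℂ), ∀ e ∈ E,
  ∀ (x : ℂ) (R : ℝ) (w : ℂ), 0 < R → Chart P x R (some e) → ‖w‖ = 1 → 0 < sg P e x →
    sg P e x < R * |cr (P.u e) w| → FE P E U x w = 0

/-- `Reach` and `RU` -/
def T_RE : Prop := ∀ (ι : Type) (P : Polygon ι) (E : Set ι) (y v : ℂ),
  RU P E ∅ y v ↔ Reach P E y v

/-- the system with `F = FE P E U` is good if the corners are bright -/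
def T_GD : Prop := ∀ (ι : Type) [Finite ι] (P : Polygon ι) (E : Set ι) (U : Set ℂ), IsOpen U →
  U ⊆ P.Ω → (∀ i j α, CornerAt P i j α → i ∈ E ∨ j ∈ E ∨ BrightU P E U i j α) →
  ∀ D : Dat ι, D.P = P → D.F = FE P E U → D.Good

/-- the mean is small near a side in `E` or in `U` -/
def T_SML : Prop := ∀ (ι : Type) [Finite ι] (P : Polygon ι) (E : Set ι) (U : Set ℂ), IsOpen U →
  U ⊆ P.Ω → E.Nonempty ∨ U.Nonempty → ∀ D : Dat ι, D.P = P → D.F = FE P E U → D.Small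

/-- two sided trapped phase points form a null set if the mean vanishes almost everywhere -/
def T_FLO : Prop := ∀ (ι : Type) [Finite ι] (P : Polygon ι) (E : Set ι) (U : Set ℂ), IsOpen U →
  U ⊆ P.Ω → (∀ᵐ x ∂(volume.restrict P.Ω), av (FE P E U x) = 0) →
  ∀ i, ∀ᵐ z ∂(P.liouville i), ¬ ∃ f : ℤ → ι × ℝ × ℝ, f 0 = (i, z) ∧
    ∀ n, P.Step (f n) (f (n + 1)) ∧ (f n).1 ∉ E ∧ ¬ Sg P U (P.pos (f n)) (P.dir (f n))

/-- forward recurrence -/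
def T_FWD : Prop := ∀ (ι : Type) [Fintype ι] (P : Polygon ι) (E : Set ι) (U : Set ℂ), IsOpen U →
  U ⊆ P.Ω → (∀ i, ∀ᵐ z ∂(P.liouville i), ¬ ∃ f : ℤ → ι × ℝ × ℝ, f 0 = (i, z) ∧
    ∀ n, P.Step (f n) (f (n + 1)) ∧ (f n).1 ∉ E ∧ ¬ Sg P U (P.pos (f n)) (P.dir (f n))) →
  ∀ i, ∀ᵐ z ∂(P.liouville i), PR P E U (i, z)

/-- the general theorem -/
def T_GEN2 : Prop := ∀ (ι : Type) [Fintype ι] (P : Polygon ι) (E : Set ι), E.Nonempty →
  (∀ i j α, CornerAt P i j α → i ∈ E ∨ j ∈ E ∨ Bright P E i j α) → P.Determines E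

/-- orbits reaching an open set -/
def T_OPN : Prop := ∀ (ι : Type) [Fintype ι] (P : Polygon ι) (U : Set ℂ), IsOpen U →
  U ⊆ P.Ω → U.Nonempty → (∀ i j α, CornerAt P i j α → BrightU P ∅ U i j α) →
  ∀ i, ∀ᵐ z ∂(P.liouville i), PR P ∅ U (i, z)

/-- density of the orbits -/
def T_DEN : Prop := ∀ (ι : Type) [Fintype ι] (P : Polygon ι),
  (∀ U : Set ℂ, IsOpen U → U ⊆ P.Ω → U.Nonempty →
    ∀ i, ∀ᵐ z ∂(P.liouville i), PR P ∅ U (i, z)) →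
  ∀ i, ∀ᵐ z ∂(P.liouville i), P.Ω ⊆ closure (trace P (i, z))

/-! ## I. Corollaries -/

/-- irrational corners with one lit direction -/
def T_IRR : Prop := ∀ (ι : Type) [Finite ι] (P : Polygon ι) (E : Set ι) (U : Set ℂ), IsOpen U →
  U ⊆ P.Ω → ∀ (i j : ι) (α : ℝ), CornerAt P i j α → Irrational (α / Real.pi) →
    (∃ φ ∈ Ioo 0 α, RU P E U (P.p j) (uv P j φ)) → BrightU P E U i j α

/-- rational corners with a long interval of lit directions; half of the length is enough if the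
interval begins at a side of the corner -/
def T_RAT : Prop := ∀ (ι : Type) (P : Polygon ι) (E : Set ι) (U : Set ℂ) (i j : ι) (α : ℝ)
  (p q : ℕ) (φ₁ φ₂ : ℝ), CornerAt P i j α → 0 < q → Nat.Coprime p q → α = p * Real.pi / q →
    0 ≤ φ₁ → φ₂ ≤ α →
    (2 * Real.pi / (Nat.lcm 2 q : ℕ) ≤ φ₂ - φ₁ ∨
      ((φ₁ = 0 ∨ φ₂ = α) ∧ Real.pi / (Nat.lcm 2 q : ℕ) ≤ φ₂ - φ₁)) →
    (∀ φ ∈ Ioo φ₁ φ₂, RU P E U (P.p j) (uv P j φ)) → BrightU P E U i j α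

/-- corners with almost all directions lit -/
def T_FUL : Prop := ∀ (ι : Type) (P : Polygon ι) (E : Set ι) (U : Set ℂ) (i j : ι) (α : ℝ),
  CornerAt P i j α → (∀ᵐ φ : ℝ, φ ∈ Ioo 0 α → RU P E U (P.p j) (uv P j φ)) →
    BrightU P E U i j α

open Pool.Agent.H79.BN in
/-- corners of a strictly convex table -/
def T_CXC : Prop := ∀ (n : ℕ) [NeZero n] (P : Polygon (Fin n)), 3 ≤ n → Cyc P → ConvPos P.p →
  ∀ i j α, CornerAt P i j α → j = i + 1 ∧ α = ang P.p i ∧ α < Real.pi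

open Pool.Agent.H79.BN in
/-- visibility of a side from a vertex of a strictly convex table -/
def T_CXV : Prop := ∀ (n : ℕ) [NeZero n] (P : Polygon (Fin n)) (E : Set (Fin n)) (i e : Fin n),
  3 ≤ n → Cyc P → ConvPos P.p → e ∈ E → e ≠ i → e ≠ i + 1 →
  ∃ φ₁ φ₂ : ℝ, 0 ≤ φ₁ ∧ φ₁ < φ₂ ∧ φ₂ ≤ ang P.p i ∧
    φ₂ - φ₁ = EuclideanGeometry.angle (P.p e) (P.p (i + 1)) (P.p (e + 1)) ∧
    (e = i + 2 → φ₁ = 0) ∧ (i = e + 1 → φ₂ = ang P.p i) ∧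
    ∀ φ ∈ Ioo φ₁ φ₂, Reach P E (P.p (i + 1)) (uv P (i + 1) φ)

open Pool.Agent.H79.BN in
/-- if all sides not adjacent to a vertex belong to `E`, almost all directions are lit -/
def T_CXF : Prop := ∀ (n : ℕ) [NeZero n] (P : Polygon (Fin n)) (E : Set (Fin n)) (i : Fin n),
  3 ≤ n → Cyc P → ConvPos P.p → (∀ k, k ≠ i → k ≠ i + 1 → k ∈ E) →
  ∀ᵐ φ : ℝ, φ ∈ Ioo 0 (ang P.p i) → Reach P E (P.p (i + 1)) (uv P (i + 1) φ)

open Pool.Agent.H79.BN in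
/-- visibility of an open set from a vertex of a strictly convex table -/
def T_CXU : Prop := ∀ (n : ℕ) [NeZero n] (P : Polygon (Fin n)) (U : Set ℂ) (i : Fin n),
  3 ≤ n → Cyc P → ConvPos P.p → IsOpen U → U ⊆ P.Ω → U.Nonempty →
  ∃ φ ∈ Ioo 0 (ang P.p i), RU P ∅ U (P.p (i + 1)) (uv P (i + 1) φ)

open Pool.Agent.H79.BN in
/-- strictly convex tables -/
def T_CVX : Prop := ∀ (n : ℕ) [NeZero n] (P : Polygon (Fin n)) (E : Set (Fin n)), 3 ≤ n →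
  Cyc P → ConvPos P.p → E.Nonempty →
  (∀ i, i ∉ E → i + 1 ∉ E → Irrational (ang P.p i / Real.pi) ∨
    (∀ k, k ≠ i → k ≠ i + 1 → k ∈ E) ∨
    ∃ e ∈ E, ∃ p q : ℕ, 0 < q ∧ Nat.Coprime p q ∧ ang P.p i = p * Real.pi / q ∧
      (2 * Real.pi / (Nat.lcm 2 q : ℕ) ≤
          EuclideanGeometry.angle (P.p e) (P.p (i + 1)) (P.p (e + 1)) ∨
        ((e = i + 2 ∨ i = e + 1) ∧ Real.pi / (Nat.lcm 2 q : ℕ) ≤
          EuclideanGeometry.angle (P.p e) (P.p (i + 1)) (P.p (e + 1))))) →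
  P.Determines E

open Pool.Agent.H79.BN in
/-- density of the orbits in strictly convex tables with irrational angles -/
def T_CVD : Prop := ∀ (n : ℕ) [NeZero n] (P : Polygon (Fin n)), 3 ≤ n → Cyc P → ConvPos P.p →
  (∀ i, Irrational (ang P.p i / Real.pi)) →
  ∀ i, ∀ᵐ z ∂(P.liouville i), P.Ω ⊆ closure (trace P (i, z))

end Pool.Agent.H93.EN
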