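import Pool.Agent.H93.EN.Targets2

/-!
# Bright corners: auxiliary targets
-/

namespace Pool.Agent.H93.EN

open MeasureTheory Set Metric Filter Topology Pool.Agent.H93.BL
open scoped ContDiff

/-- trigonometric approximation -/
def T_TRG : Prop := ∀ (ψ : ℂ → ℝ), Continuous ψ → ∀ ε > (0 : ℝ), ∃ (K : ℕ) (c : ℤ → ℂ),
  ∀ w, ‖w‖ = 1 → |ψ w - (∑ k ∈ Finset.Icc (-(K : ℤ)) K, c k * w ^ k).re| ≤ ε

/-- Green's identity in the upper half plane -/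
def T_GRH0 : Prop := ∀ (v : ℂ → ℂ) (η : ℂ → ℝ), ContDiff ℝ 2 v → ContDiff ℝ 2 η →
  HasCompactSupport η →
  (∀ x ∈ tsupport η, x.im = 0 → ((starRingEnd ℂ) (v x) * fderiv ℝ v x 1).im = 0) →
  ∫ x in {x : ℂ | 0 < x.im},
      η x * ((starRingEnd ℂ) (fderiv ℝ v x 1) * fderiv ℝ v x Complex.I).im =
    -(1 / 2) * ∫ x in {x : ℂ | 0 < x.im},
      ((starRingEnd ℂ) (v x) * ((fderiv ℝ η x 1 : ℂ) * fderiv ℝ v x Complex.I -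
        (fderiv ℝ η x Complex.I : ℂ) * fderiv ℝ v x 1)).im

/-- averaging over discs -/
def T_FUB : Prop := ∀ (ι : Type) (D : Dat ι) (a b δ : ℝ), 0 < δ →
  ∫ x in D.Sh a b, (∫ y in ball x δ ∩ D.P.Ω, D.f0 y) ≤
    Real.pi * δ ^ 2 * ∫ y in D.Sh (a - δ) (b + δ), D.f0 y

/-- differences along an arc -/
def T_CA0 : Prop := ∀ (ι : Type) (D : Dat ι) (r : ℝ) (i j : ι) (α : ℝ), D.Cor r i j α →
  ∀ δ > (0 : ℝ), ∀ s ∈ Ioo 0 r, 9 * δ < D.κ * s → ∀ k : ℤ, 0 ≤ D.arc j α δ k s ∧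
    ∀ θ ∈ Ioo 0 α, ∀ θ' ∈ Ioo 0 α, ‖D.u δ k (pt D.P j s θ) - D.u δ k (pt D.P j s θ')‖ ≤
      D.arc j α δ (k - 1) s + D.arc j α δ (k + 1) s

/-- the sector of a corner between two radii -/
def Sec {ι : Type} (P : Polygon ι) (j : ι) (α a b : ℝ) : Set ℂ :=
  {x | ∃ s ∈ Ioo a b, ∃ θ ∈ Ioo 0 α, x = pt P j s θ}

/-- integrated control in one corner -/
def T_DC1 : Prop := ∀ (ι : Type) (D : Dat ι) (r : ℝ) (i j : ι) (α : ℝ), D.Cor r i j α →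
  D.Cool j α → ∀ ε > (0 : ℝ), ∃ (K : ℕ) (C r₁ c₁ : ℝ), 0 < C ∧ 0 < r₁ ∧ 0 < c₁ ∧
    ∀ t ∈ Ioo 0 r₁, ∀ δ : ℝ, 0 < δ → δ ≤ c₁ * t →
      Sec D.P j α t (16 * t) ⊆ D.Ann t (16 * t) ∧ MeasurableSet (Sec D.P j α t (16 * t)) ∧
      ∫ x in Sec D.P j α t (16 * t), D.a δ x ≤ ε * t ^ 2 +
        C * t * ∑ m ∈ Finset.Icc (-(K : ℤ)) K, ∫ x in Sec D.P j α t (16 * t), ‖D.h δ m x‖

/-- the mean of the mollification is a convolution in discs contained in the table -/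
def T_CVF : Prop := ∀ (ι : Type) (D : Dat ι) (x₀ : ℂ) (R : ℝ), 0 < R → ball x₀ (2 * R) ⊆ D.P.Ω →
  ∀ x ∈ ball x₀ (3 * R / 2), R / 2 ≤ D.rho x ∧ ∀ δ ∈ Ioo 0 (D.κ * R / 2),
    D.a δ x = ∫ y, chi δ (x - y) * D.f0 y

/-- sectors at a vertex -/
def T_VXS : Prop := ∀ (ι : Type) [Finite ι] (P : Polygon ι) (b : ℂ), P.Vtx b →
  ∃ r₀ > (0 : ℝ), ∀ r ∈ Ioc 0 r₀, ∀ x ∈ P.Ω, dist x b < r → ∃ i j α, P.q i = P.p j ∧ P.p j = b ∧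
    0 < α ∧ α ≤ 2 * Real.pi ∧ -P.u i = uv P j α ∧ r ≤ P.len i ∧ r ≤ P.len j ∧
    (∀ s ∈ Ioo 0 r, ∀ θ ∈ Ioo 0 α, pt P j s θ ∈ P.Ω) ∧ ∃ θ ∈ Ioo 0 α, x = pt P j (dist x b) θ

/-- reaching from a point whose first hit is known -/
def T_RUH : Prop := ∀ (ι : Type) (P : Polygon ι) (E : Set ι) (U : Set ℂ) (y w : ℂ) (t : ℝ)
  (z : ι × ℝ × ℝ), P.Phase z → 0 < t → P.pos z = y + (t : ℂ) * w →
  (∀ r ∈ Ioo 0 t, y + (r : ℂ) * w ∈ P.Ω) → P.dir z = P.refl z.1 w →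
  (RU P E U y w ↔ Sg P U y w ∨ PR P E U z)

/-- along an orbit which is trapped in both directions the indicator function is one -/
def T_FL1 : Prop := ∀ (ι : Type) [Finite ι] (P : Polygon ι) (E : Set ι) (U : Set ℂ), U ⊆ P.Ω →
  ∀ f : ℤ → ι × ℝ × ℝ, (∀ n, P.Step (f n) (f (n + 1)) ∧ (f n).1 ∉ E ∧
    ¬ Sg P U (P.pos (f n)) (P.dir (f n))) → ∃ T > (0 : ℝ), ∀ t ∈ Ioo 0 T,
      FE P E U (P.pos (f 0) + (t : ℂ) * P.dir (f 0)) (P.dir (f 0)) = 1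

end Pool.Agent.H93.EN
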