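import Pool.Agent.H93.EN.Targets2

namespace Pool.Agent.H93.EN
open MeasureTheory Set Metric Filter Topology Pool.Agent.H93.BL
open scoped ContDiff

theorem an (h1 : T_SEC) (h2 : T_FI1) (h3 : T_FI2) : T_AN := by
  intro ι _ D hG hS
  exact h3 ι D (h2 ι D (h1 ι D hG)) hS

theorem gen2 (hdat : T_DAT) (hinf : T_INF) (han : T_AN) (hgd : T_GD) (hsml : T_SML)
    (hflo : T_FLO) (hre : T_RE) (hm9 : T_M9) (hm0 : T_M0) : T_GEN2 := by
  intro ι _ P E hE hB X hXm hX hXE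
  have hU : (∅ : Set ℂ) ⊆ P.Ω := empty_subset _
  obtain ⟨D, hDP, hDF, -⟩ := hdat ι P (FE P E ∅) (hinf ι P E ∅ isOpen_empty hU)
  have hgood : D.Good := by
    refine hgd ι P E ∅ isOpen_empty hU ?_ D hDP hDF
    intro i j α hc
    rcases hB i j α hc with h | h | h
    · exact Or.inl h
    · exact Or.inr (Or.inl h)
    · refine Or.inr (Or.inr ?_)
      refine h.mono ?_
      rintro θ ⟨l, hl, φ, hφ, h1, h2⟩
      exact ⟨l, hl, φ, hφ, h1, (hre ι P E _ _).2 h2⟩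
  have hsmall : D.Small := hsml ι P E ∅ isOpen_empty hU (Or.inl hE) D hDP hDF
  have h0 := han ι D hgood hsmall
  have h0' : ∀ᵐ x ∂(volume.restrict P.Ω), av (FE P E ∅ x) = 0 := by
    have : D.f0 = fun x => av (FE P E ∅ x) := by
      funext x; simp only [Dat.f0, hDF]
    rw [this, hDP] at h0
    exact h0
  have h1 := hflo ι P E ∅ isOpen_empty hU h0'
  intro i
  have h2 := hm9 ι P E X hX hXE i
  have h3 : ∀ᵐ z ∂(P.liouville i), z ∈ X i := by
    filter_upwards [h1 i, h2] with z hz1 hz2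
    by_contra hz
    obtain ⟨f, hf0, hf⟩ := hz2 hz
    refine hz1 ⟨f, hf0, fun n => ⟨(hf n).1, (hf n).2.2.1, ?_⟩⟩
    rintro ⟨r, -, hr, -⟩
    exact hr
  exact h3

theorem opn (hdat : T_DAT) (hinf : T_INF) (han : T_AN) (hgd : T_GD) (hsml : T_SML)
    (hflo : T_FLO) (hfwd : T_FWD) : T_OPN := by
  intro ι _ P U hU hUP hUn hB
  obtain ⟨D, hDP, hDF, -⟩ := hdat ι P (FE P ∅ U) (hinf ι P ∅ U hU hUP)
  have hgood : D.Good := hgd ι P ∅ U hU hUP (fun i j α hc => Or.inr (Or.inr (hB i j α hc))) D hDP hDF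
  have hsmall : D.Small := hsml ι P ∅ U hU hUP (Or.inr hUn) D hDP hDF
  have h0 := han ι D hgood hsmall
  have h0' : ∀ᵐ x ∂(volume.restrict P.Ω), av (FE P ∅ U x) = 0 := by
    have : D.f0 = fun x => av (FE P ∅ U x) := by
      funext x; simp only [Dat.f0, hDF]
    rw [this, hDP] at h0
    exact h0
  exact hfwd ι P ∅ U hU hUP (hflo ι P ∅ U hU hUP h0')

open Pool.Agent.H79.BN in
theorem cvx (hgen : T_GEN2) (hirr : T_IRR) (hrat : T_RAT) (hful : T_FUL) (hcxc : T_CXC)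
    (hcxv : T_CXV) (hre : T_RE) (hfull : T_CXF) : T_CVX := by
  intro n _ P E hn hC hV hE hang
  refine hgen (Fin n) P E hE ?_
  intro i j α hc
  obtain ⟨hj, hα, -⟩ := hcxc n P hn hC hV i j α hc
  by_cases hi : i ∈ E
  · exact Or.inl hi
  by_cases hj' : j ∈ E
  · exact Or.inr (Or.inl hj')
  refine Or.inr (Or.inr ?_)
  subst hj
  have key : BrightU P E ∅ i (i + 1) α → Bright P E i (i + 1) α := by
    intro h
    refine h.mono ?_
    rintro θ ⟨l, hl, φ, hφ, h1, h2⟩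
    exact ⟨l, hl, φ, hφ, h1, (hre (Fin n) P E _ _).1 h2⟩
  apply key
  rcases hang i hi hj' with h | h | ⟨e, he, p, q, hq, hpq, hα', hlt⟩
  · rw [← hα] at h
    refine hirr (Fin n) P E ∅ isOpen_empty (empty_subset _) i (i + 1) α hc h ?_
    obtain ⟨e, he⟩ := hE
    have he1 : e ≠ i := fun h => hi (h ▸ he)
    have he2 : e ≠ i + 1 := fun h => hj' (h ▸ he)
    obtain ⟨φ₁, φ₂, h0, h12, h2, -, -, -, hR⟩ := hcxv n P E i e hn hC hV he he1 he2
    refine ⟨(φ₁ + φ₂) / 2, ⟨by linarith, by rw [hα]; linarith⟩, ?_⟩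
    exact (hre (Fin n) P E _ _).2 (hR _ ⟨by linarith, by linarith⟩)
  · refine hful (Fin n) P E ∅ i (i + 1) α hc ?_
    rw [hα]
    refine (hfull n P E i hn hC hV h).mono ?_
    intro φ hφ h
    exact (hre (Fin n) P E _ _).2 (hφ h)
  · have he1 : e ≠ i := fun h => hi (h ▸ he)
    have he2 : e ≠ i + 1 := fun h => hj' (h ▸ he)
    obtain ⟨φ₁, φ₂, h0, h12, h2, hd, ha, hb, hR⟩ := hcxv n P E i e hn hC hV he he1 he2
    refine hrat (Fin n) P E ∅ i (i + 1) α p q φ₁ φ₂ hc hq hpq (by rw [hα, hα']) h0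
      (by rw [hα]; exact h2) ?_ ?_
    · rw [hd]
      rcases hlt with hlt | ⟨h1 | h1, hlt⟩
      · exact Or.inl hlt
      · exact Or.inr ⟨Or.inl (ha h1), hlt⟩
      · exact Or.inr ⟨Or.inr (by rw [hα]; exact hb h1), hlt⟩
    intro φ hφ
    exact (hre (Fin n) P E _ _).2 (hR φ hφ)

open Pool.Agent.H79.BN in
theorem cvd (hopn : T_OPN) (hden : T_DEN) (hirr : T_IRR) (hcxc : T_CXC) (hcxu : T_CXU) :
    T_CVD := by
  intro n _ P hn hC hV hang
  refine hden (Fin n) P ?_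
  intro U hU hUP hUn
  refine hopn (Fin n) P U hU hUP hUn ?_
  intro i j α hc
  obtain ⟨hj, hα, -⟩ := hcxc n P hn hC hV i j α hc
  subst hj
  refine hirr (Fin n) P ∅ U hU hUP i (i + 1) α hc (by rw [hα]; exact hang i) ?_
  rw [hα]
  exact hcxu n P U i hn hC hV hU hUP hUn

end Pool.Agent.H93.EN
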