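import Pool.Agent.H79.BN.Stmt

/-!
# Polygonal billiards: tables with bright corners

The statement layer (definitions only) for the second group of results on `MP_009700_an`.
The tables, the billiard map and `Polygon.Determines` are defined in `Pool/Agent/H93/BL/Stmt.lean`,
convex position and interior angles in `Pool/Agent/H79/BN/Stmt.lean`.
-/

namespace Pool.Agent.H93.EN

open MeasureTheory Set Pool.Agent.H93.BL

variable {ι : Type} (P : Polygon ι)

/-- The billiard orbit starting at the point `y` (inside the table, on a side, or at a vertex) in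
the direction of the unit vector `v` reaches a side in `E` after finitely many reflections. -/
def Reach (E : Set ι) (y v : ℂ) : Prop :=
  ∃ z, P.Phase z ∧ (∃ t > (0 : ℝ), P.pos z = y + (t : ℂ) * v ∧
      ∀ r ∈ Ioo 0 t, y + (r : ℂ) * v ∈ P.Ω) ∧
    P.dir z = P.refl z.1 v ∧ ∃ z', Relation.ReflTransGen P.Step z z' ∧ z'.1 ∈ E

/-- The unit vector at the angle `θ` (counterclockwise) to the side `j`. -/
noncomputable def uv (j : ι) (θ : ℝ) : ℂ := Complex.exp ((θ : ℂ) * Complex.I) * P.u j

/-- The table has at the point `p j = q i` a corner of angle `α` between the sides `i` and `j`: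
small sectors of angle `α` between the two sides belong to the interior.  (`α = 2 π` at the end
of a slit.) -/
def CornerAt (i j : ι) (α : ℝ) : Prop :=
  P.q i = P.p j ∧ 0 < α ∧ α ≤ 2 * Real.pi ∧ -P.u i = uv P j α ∧
    ∃ r > (0 : ℝ), ∀ s ∈ Ioo 0 r, ∀ θ ∈ Ioo 0 α, P.p j + (s : ℂ) * uv P j θ ∈ P.Ω

/-- Composition of the reflections of directions in the sides of a list. -/
noncomputable def reflW (l : List ι) (v : ℂ) : ℂ := l.foldr (fun k v => P.refl k v) v

/-- The corner of angle `α` between `i` and `j` is bright: almost every direction is mapped by a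
composition of reflections in `i` and `j`, up to the sign, to a direction of the open sector such
that the billiard orbit which starts at the corner point in this direction reaches `E`. -/
def Bright (E : Set ι) (i j : ι) (α : ℝ) : Prop :=
  ∀ᵐ θ : ℝ, ∃ l : List ι, (∀ k ∈ l, k = i ∨ k = j) ∧ ∃ φ ∈ Ioo 0 α,
    (reflW P l (Complex.exp ((θ : ℂ) * Complex.I)) = uv P j φ ∨
      reflW P l (Complex.exp ((θ : ℂ) * Complex.I)) = -uv P j φ) ∧
    Reach P E (P.p j) (uv P j φ)

/-- The part of the table covered by the forward orbit of the phase point `z`. -/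
def trace (z : ι × ℝ × ℝ) : Set ℂ :=
  {x | ∃ z' z'', Relation.ReflTransGen P.Step z z' ∧ P.Step z' z'' ∧
    x ∈ openSegment ℝ (P.pos z') (P.pos z'')}

end Pool.Agent.H93.EN
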