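import Pool.Agent.H93.BL.Targets
import Pool.Agent.H93.EN.Stmt

/-!
# Bright corners: definitions for the modules
-/

namespace Pool.Agent.H93.EN

open MeasureTheory Set Metric Pool.Agent.H93.BL
open scoped ContDiff

/-! ## Circle averages and modes -/

/-- mean over the unit circle -/
noncomputable def av (g : ℂ → ℝ) : ℝ :=
  (2 * Real.pi)⁻¹ * ∫ θ in (0 : ℝ)..(2 * Real.pi), g (Complex.exp ((θ : ℂ) * Complex.I))

/-- `k`-th Fourier mode on the unit circle -/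
noncomputable def md (g : ℂ → ℝ) (k : ℤ) : ℂ :=
  (((2 * Real.pi)⁻¹ : ℝ) : ℂ) * ∫ θ in (0 : ℝ)..(2 * Real.pi),
    (g (Complex.exp ((θ : ℂ) * Complex.I)) : ℂ) * Complex.exp (-((k : ℂ) * (θ : ℂ) * Complex.I))

/-- reflection of directions in the line with direction `a` -/
noncomputable def rf (a w : ℂ) : ℂ := a ^ 2 * (starRingEnd ℂ) w

/-- words in two reflections -/
noncomputable def wd (a b : ℂ) (l : List Bool) (w : ℂ) : ℂ :=
  l.foldr (fun t w => rf (if t then a else b) w) w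

/-! ## The radial mollifier -/

/-- radial bump, positive exactly on the open unit disc -/
noncomputable def bmp (x : ℂ) : ℝ := Real.smoothTransition (1 - ‖x‖ ^ 2)

/-- normalised radial bump of radius `δ` -/
noncomputable def chi (δ : ℝ) (x : ℂ) : ℝ := (δ ^ 2 * ∫ y, bmp y)⁻¹ * bmp (((δ⁻¹ : ℝ) : ℂ) * x)

/-- gradient of `chi δ` as a complex number -/
noncomputable def gchi (δ : ℝ) (x : ℂ) : ℂ :=
  (fderiv ℝ (chi δ) x 1 : ℂ) + (fderiv ℝ (chi δ) x Complex.I : ℂ) * Complex.I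

/-- bounded measurable functions of position and direction, with values in `[0,1]` -/
def Bd (Φ : ℂ → ℂ → ℝ) : Prop :=
  Measurable (Function.uncurry Φ) ∧ (∀ y w, 0 ≤ Φ y w ∧ Φ y w ≤ 1) ∧
    ∃ R, ∀ y w, R < ‖y‖ → Φ y w = 0

/-- mollification in the position -/
noncomputable def Ml (Φ : ℂ → ℂ → ℝ) (δ : ℝ) (x w : ℂ) : ℝ := ∫ y, chi δ (x - y) * Φ y w

/-- gradient of the mollification, as a complex number -/
noncomputable def Nl (Φ : ℂ → ℂ → ℝ) (δ : ℝ) (x w : ℂ) : ℂ := ∫ y, gchi δ (x - y) * (Φ y w : ℂ)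

/-- component of the gradient orthogonal to the direction -/
noncomputable def Hl (Φ : ℂ → ℂ → ℝ) (δ : ℝ) (x w : ℂ) : ℝ :=
  (Nl Φ δ x w * (starRingEnd ℂ) (Complex.I * w)).re

/-- `Φ` is invariant under the free flow in the disc `ball x R` -/
def Inv (Φ : ℂ → ℂ → ℝ) (x : ℂ) (R : ℝ) : Prop :=
  ∀ w : ℂ, ‖w‖ = 1 → ∀ t : ℝ, ∀ᵐ y : ℂ, y ∈ ball x R → y + (t : ℂ) * w ∈ ball x R →
    Φ (y + (t : ℂ) * w) w = Φ y w

/-- `Φ` and `Ψ` agree on the disc `ball x R` -/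
def Agr (Φ Ψ : ℂ → ℂ → ℝ) (x : ℂ) (R : ℝ) : Prop :=
  ∀ᵐ y : ℂ, y ∈ ball x R → ∀ w, Φ y w = Ψ y w

/-! ## Charts of a table -/

section table

variable {ι : Type} (P : Polygon ι)

/-- signed distance from the line of the side `j`, positive on the left -/
noncomputable def sg (j : ι) (y : ℂ) : ℝ := cr (P.u j) (y - P.p j)

/-- point at distance `s` from `p j` in the direction of angle `θ` to the side `j` -/
noncomputable def pt (j : ι) (s θ : ℝ) : ℂ := P.p j + (s : ℂ) * uv P j θ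

/-- the set of vertices -/
def VV : Set ℂ := {w | P.Vtx w}

/-- chart of radius `R` at `x`: the disc lies in the table, or its left half with respect to the
side `j` does, and the chord on the line of `j` belongs to the open side -/
def Chart (x : ℂ) (R : ℝ) : Option ι → Prop
  | none => ball x R ⊆ P.Ω
  | some j => 0 ≤ sg P j x ∧ (∀ y ∈ ball x R, 0 < sg P j y → y ∈ P.Ω) ∧
      ∀ y ∈ ball x R, sg P j y = 0 → y ∈ openSegment ℝ (P.p j) (P.q j)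

/-- local structure of the table with constant `κ` -/
def LS (κ : ℝ) : Prop :=
  0 < κ ∧ κ ≤ 1 / 4 ∧ (∀ x ∈ P.Ω, ∃ τ, Chart P x (κ * infDist x (VV P)) τ) ∧
    ∀ j, ∀ x ∈ openSegment ℝ (P.p j) (P.q j), Chart P x (κ * infDist x (VV P)) (some j)

/-- invariant functions of the billiard flow with values in `[0,1]` -/
structure InvF (F : ℂ → ℂ → ℝ) : Prop where
  meas : Measurable (Function.uncurry F)
  bd : ∀ y w, 0 ≤ F y w ∧ F y w ≤ 1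
  out : ∀ y w, y ∉ P.Ω → F y w = 0
  even : ∀ y w, F y (-w) = F y w
  flow : ∀ (y w : ℂ) (t : ℝ), ‖w‖ = 1 → 0 ≤ t → (∀ r ∈ Icc 0 t, y + (r : ℂ) * w ∈ P.Ω) →
    F (y + (t : ℂ) * w) w = F y w
  cross : ∀ (j : ι) (y w : ℂ) (t s : ℝ), ‖w‖ = 1 → 0 < t → 0 < s → ip w (P.n j) < 0 →
    (∀ r ∈ Ico 0 t, y + (r : ℂ) * w ∈ P.Ω) →
    y + (t : ℂ) * w ∈ openSegment ℝ (P.p j) (P.q j) →
    (∀ r ∈ Ioc 0 s, y + (t : ℂ) * w + (r : ℂ) * P.refl j w ∈ P.Ω) →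
    F (y + (t : ℂ) * w + (s : ℂ) * P.refl j w) (P.refl j w) = F y w

/-- extension of `F` by reflection in the side `j` -/
noncomputable def Phi (F : ℂ → ℂ → ℝ) : Option ι → ℂ → ℂ → ℝ
  | none => F
  | some j => fun y w => if 0 < sg P j y then F y w else F (P.aff j y) (P.refl j w)

end table

/-! ## Systems of local extensions -/

/-- modes of the mollification, for a family `X x` of local extensions -/
noncomputable def uX (X : ℂ → ℂ → ℂ → ℝ) (δ : ℝ) (k : ℤ) (x : ℂ) : ℂ := md (Ml (X x) δ x) k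

/-- modes of the orthogonal derivative -/
noncomputable def hX (X : ℂ → ℂ → ℂ → ℝ) (δ : ℝ) (k : ℤ) (x : ℂ) : ℂ := md (Hl (X x) δ x) k

/-- integrand of the right side of the Green identity -/
noncomputable def grn (X : ℂ → ℂ → ℂ → ℝ) (δ : ℝ) (k : ℤ) (η : ℂ → ℝ) (x : ℂ) : ℝ :=
  ((starRingEnd ℂ) (uX X δ k x) *
    ((fderiv ℝ η x 1 : ℂ) * ((hX X δ (k + 1) x + hX X δ (k - 1) x) / 2) -
      (fderiv ℝ η x Complex.I : ℂ) *
        (Complex.I / 2 * (hX X δ (k - 1) x - hX X δ (k + 1) x)))).im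

/-- the Green identity for the test function `η` -/
def GreenId (Ω : Set ℂ) (X : ℂ → ℂ → ℂ → ℝ) (δ : ℝ) (k : ℤ) (η : ℂ → ℝ) : Prop :=
  ∫ x in Ω, η x * ((‖hX X δ (k + 1) x‖ ^ 2 - ‖hX X δ (k - 1) x‖ ^ 2) / 4) =
    -(1 / 2) * ∫ x in Ω, grn X δ k η x

/-- the Green identity near the point `v` -/
def GreenAt (Ω : Set ℂ) (X : ℂ → ℂ → ℂ → ℝ) (δ : ℝ) (k : ℤ) (v : ℂ) : Prop :=
  ∃ s > (0 : ℝ), ∀ η : ℂ → ℝ, ContDiff ℝ 2 η → tsupport η ⊆ ball v s → GreenId Ω X δ k η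

/-- A table with a function `F` of position and direction and with local extensions `X x` of `F`
in the discs of radius `κ` times the distance to the finite set `B` of bad points, invariant under
the free flow and compatible with each other. -/
structure Dat (ι : Type) where
  P : Polygon ι
  B : Set ℂ
  κ : ℝ
  F : ℂ → ℂ → ℝ
  X : ℂ → ℂ → ℂ → ℝ
  Bfin : B.Finite
  Bne : B.Nonempty
  Bsub : ∀ b ∈ B, P.Vtx b ∨ b ∉ closure P.Ω
  κpos : 0 < κ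
  κle : κ ≤ 1 / 4
  Fb : Bd F
  Fout : ∀ y w, y ∉ P.Ω → F y w = 0
  Fev : ∀ y w, F y (-w) = F y w
  Xb : ∀ x, Bd (X x)
  inv : ∀ x ∈ P.Ω, Inv (X x) x (κ * infDist x B)
  loc : ∀ x ∈ P.Ω, ∃ s > (0 : ℝ), ∀ x' ∈ ball x s, Agr (X x') (X x) x (κ * infDist x B / 2)
  own : ∀ x ∈ P.Ω, ∀ᵐ y : ℂ, y ∈ ball x (κ * infDist x B) → segment ℝ x y ⊆ P.Ω →
    ∀ w, X x y w = F y w
  mul : ∃ C > (0 : ℝ), ∀ x ∈ P.Ω, ∀ δ : ℝ, 0 < δ → δ ≤ κ * infDist x B →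
    ∫ y in ball x δ, av (X x y) ≤ C * ∫ y in ball x δ ∩ P.Ω, av (F y)
  low : ∃ c > (0 : ℝ), ∀ y ∈ P.Ω, ∀ δ : ℝ, 0 < δ → δ ≤ κ * infDist y B →
    c ≤ ∫ x in {x | segment ℝ x y ⊆ P.Ω}, chi δ (x - y)
  side : ∀ j, ∀ x₀ ∈ openSegment ℝ (P.p j) (P.q j), ∃ s > (0 : ℝ), ∃ Φ : ℂ → ℂ → ℝ, Bd Φ ∧
    Inv Φ x₀ (κ * infDist x₀ B / 2) ∧
    (∀ᵐ y : ℂ, y ∈ ball x₀ (κ * infDist x₀ B / 2) → ∀ w, Φ (P.aff j y) (P.refl j w) = Φ y w) ∧
    ∀ x ∈ ball x₀ s, 0 < sg P j x → x ∈ P.Ω ∧ Agr (X x) Φ x₀ (κ * infDist x₀ B / 2)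
  vert : ∀ v, P.Vtx v → v ∉ B → ∀ δ : ℝ, 0 < δ → 9 * δ < κ * infDist v B → ∀ k : ℤ,
    GreenAt P.Ω X δ k v

namespace Dat

variable {ι : Type} (D : Dat ι)

/-- distance to the bad points -/
noncomputable def rho (x : ℂ) : ℝ := infDist x D.B

/-- the part of the table where mollification at scale `δ` is possible -/
def OM (δ : ℝ) : Set ℂ := {x | x ∈ D.P.Ω ∧ 8 * δ < D.κ * D.rho x}

/-- modes `u_k` -/
noncomputable def u (δ : ℝ) (k : ℤ) (x : ℂ) : ℂ := uX D.X δ k x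

/-- modes `h_k` -/
noncomputable def h (δ : ℝ) (k : ℤ) (x : ℂ) : ℂ := hX D.X δ k x

/-- mean of the mollification over all directions -/
noncomputable def a (δ : ℝ) (x : ℂ) : ℝ := av (Ml (D.X x) δ x)

/-- mean of `F` over all directions -/
noncomputable def f0 (x : ℂ) : ℝ := av (D.F x)

/-- points of the table with distance to `B` in an interval -/
def Ann (a b : ℝ) : Set ℂ := {x | x ∈ D.P.Ω ∧ a < D.rho x ∧ D.rho x < b}

/-- closed version of `Ann` -/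
def Sh (a b : ℝ) : Set ℂ := {x | x ∈ D.P.Ω ∧ a ≤ D.rho x ∧ D.rho x ≤ b}

/-- points of the table with distance at least `a` to `B` -/
def Out (a : ℝ) : Set ℂ := {x | x ∈ D.P.Ω ∧ a ≤ D.rho x}

/-- a corner at a bad point whose sector of radius `r` is embedded -/
def Cor (r : ℝ) (i j : ι) (α : ℝ) : Prop :=
  D.P.q i = D.P.p j ∧ D.P.p j ∈ D.B ∧ 0 < r ∧ 0 < α ∧ α ≤ 2 * Real.pi ∧
    -D.P.u i = uv D.P j α ∧ r ≤ D.P.len i ∧ r ≤ D.P.len j ∧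
    ∀ s ∈ Ioo 0 r, ∀ θ ∈ Ioo 0 α, pt D.P j s θ ∈ D.P.Ω ∧ D.rho (pt D.P j s θ) = s

/-- the quantity controlling the modes along the arc of radius `s` -/
noncomputable def arc (j : ι) (α δ : ℝ) (m : ℤ) (s : ℝ) : ℝ :=
  s * ∫ θ in (0 : ℝ)..α, ‖D.h δ m (pt D.P j s θ)‖

/-- near the side `k`, `F` vanishes in all directions hitting the side -/
def Cold (k : ι) : Prop :=
  ∀ (x : ℂ) (R : ℝ) (w : ℂ), 0 < R → Chart D.P x R (some k) → ‖w‖ = 1 → 0 < sg D.P k x →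
    sg D.P k x < R * |cr (D.P.u k) w| → D.F x w = 0

/-- bright corner for `F` -/
def BrightF (i j : ι) (α : ℝ) : Prop :=
  ∀ᵐ θ : ℝ, ∃ l : List ι, (∀ k ∈ l, k = i ∨ k = j) ∧ ∃ φ ∈ Ioo 0 α,
    (reflW D.P l (Complex.exp ((θ : ℂ) * Complex.I)) = uv D.P j φ ∨
      reflW D.P l (Complex.exp ((θ : ℂ) * Complex.I)) = -uv D.P j φ) ∧
    ∃ ε > (0 : ℝ), ∀ s ∈ Ioo 0 ε, ∀ ψ ∈ Ioo (φ - ε) (φ + ε), ∀ w : ℂ, ‖w‖ = 1 →
      ‖w - uv D.P j φ‖ < ε → D.F (pt D.P j s ψ) w = 0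

/-- all corners at bad points are cold or bright -/
def Good : Prop :=
  ∀ r i j α, D.Cor r i j α → D.Cold i ∨ D.Cold j ∨ D.BrightF i j α

/-- `f0` is small near some point -/
def Small : Prop :=
  ∀ ε > (0 : ℝ), ∃ x₀ : ℂ, ∃ s > (0 : ℝ), ball x₀ s ⊆ D.P.Ω ∧ ∀ x ∈ ball x₀ s, D.f0 x ≤ ε

/-- the mean of the mollification in the corner is controlled by the arc quantities -/
def Cool (j : ι) (α : ℝ) : Prop :=
  ∀ ε > (0 : ℝ), ∃ (K : ℕ) (C r₁ c₁ : ℝ), 0 < C ∧ 0 < r₁ ∧ 0 < c₁ ∧ ∀ s ∈ Ioo 0 r₁, ∀ δ : ℝ,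
    0 < δ → δ ≤ c₁ * s → ∀ θ ∈ Ioo 0 α,
      D.a δ (pt D.P j s θ) ≤ ε + C * ∑ m ∈ Finset.Icc (-(K : ℤ)) K, D.arc j α δ m s

/-- the conclusion of the second round -/
def Flat : Prop :=
  ∀ ε > (0 : ℝ), ∀ r₀ > (0 : ℝ), ∃ r ∈ Ioo 0 r₀, ∃ δ ∈ Ioo 0 r₀, 9 * δ < D.κ * r ∧
    ∀ m : ℤ, ∫ x in D.Out (8 * r), ‖D.h δ m x‖ ^ 2 ≤ ε

end Dat

/-! ## Billiard orbits -/

section orbits

variable {ι : Type} (P : Polygon ι)

/-- the ray from `y` in direction `v` meets `U` before leaving the table -/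
def Sg (U : Set ℂ) (y v : ℂ) : Prop :=
  ∃ r : ℝ, 0 ≤ r ∧ y + (r : ℂ) * v ∈ U ∧ ∀ r' ∈ Ioc 0 r, y + (r' : ℂ) * v ∈ P.Ω

/-- the phase point has a descendant on a side in `E` or whose outgoing segment meets `U` -/
def PR (E : Set ι) (U : Set ℂ) (z : ι × ℝ × ℝ) : Prop :=
  ∃ z', Relation.ReflTransGen P.Step z z' ∧ (z'.1 ∈ E ∨ Sg P U (P.pos z') (P.dir z'))

/-- the orbit of `(y, v)` reaches `E` or `U` -/
def RU (E : Set ι) (U : Set ℂ) (y v : ℂ) : Prop :=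
  Sg P U y v ∨ ∃ z, P.Phase z ∧ (∃ t > (0 : ℝ), P.pos z = y + (t : ℂ) * v ∧
      ∀ r ∈ Ioo 0 t, y + (r : ℂ) * v ∈ P.Ω) ∧
    P.dir z = P.refl z.1 v ∧ PR P E U z

open Classical in
/-- indicator function of the states whose two sided orbit avoids `E` and `U` -/
noncomputable def FE (E : Set ι) (U : Set ℂ) (y w : ℂ) : ℝ :=
  if y ∈ P.Ω ∧ ‖w‖ = 1 ∧ ¬ RU P E U y w ∧ ¬ RU P E U y (-w) then 1 else 0

/-- bright corner with respect to `E` and `U` -/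
def BrightU (E : Set ι) (U : Set ℂ) (i j : ι) (α : ℝ) : Prop :=
  ∀ᵐ θ : ℝ, ∃ l : List ι, (∀ k ∈ l, k = i ∨ k = j) ∧ ∃ φ ∈ Ioo 0 α,
    (reflW P l (Complex.exp ((θ : ℂ) * Complex.I)) = uv P j φ ∨
      reflW P l (Complex.exp ((θ : ℂ) * Complex.I)) = -uv P j φ) ∧
    RU P E U (P.p j) (uv P j φ)

end orbits

end Pool.Agent.H93.EN
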