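import Pool.Agent.H93.EN.Defs

/-!
# Bright corners: targets of the modules, parts A (circle), B (mollifier, gluing), C (Green),
D (energy), E (corners), F (pigeonhole and end)
-/

namespace Pool.Agent.H93.EN

open MeasureTheory Set Metric Filter Topology Pool.Agent.H93.BL
open scoped ContDiff

/-! ## A. The circle -/

/-- Bessel's inequality -/
def T_B1 : Prop := ∀ g : ℂ → ℝ, Measurable g → (∃ C, ∀ w, |g w| ≤ C) → ∀ s : Finset ℤ,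
  ∑ k ∈ s, ‖md g k‖ ^ 2 ≤ av fun w => g w ^ 2

/-- elementary properties of the modes -/
def T_B2 : Prop := ∀ (g g' : ℂ → ℝ) (C : ℝ), Measurable g → Measurable g' →
  (∀ w, ‖w‖ = 1 → |g w| ≤ C) → (∀ w, ‖w‖ = 1 → |g' w| ≤ C) →
  (md g 0 = (av g : ℂ)) ∧ ((∀ w, ‖w‖ = 1 → g w ≤ g' w) → av g ≤ av g') ∧
  (av (fun w => |g w|) ≤ C) ∧ ∀ k : ℤ, ‖md g k‖ ≤ av (fun w => |g w|) ∧
    md g (-k) = (starRingEnd ℂ) (md g k) ∧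
    md (fun w => g w + g' w) k = md g k + md g' k ∧
    md (fun w => -(w.im) * g w) k = Complex.I / 2 * (md g (k - 1) - md g (k + 1)) ∧
    md (fun w => w.re * g w) k = 1 / 2 * (md g (k - 1) + md g (k + 1))

/-- reflections -/
def T_B3 : Prop := ∀ (g : ℂ → ℝ) (a : ℂ), ‖a‖ = 1 →
  (av (fun w => g (rf a w)) = av g) ∧
  (∀ k : ℤ, md (fun w => g (rf a w)) k = (a ^ 2) ^ (-k) * (starRingEnd ℂ) (md g k)) ∧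
  (∀ (w : ℂ), rf a (rf a w) = w ∧ ‖rf a w‖ = ‖w‖)

/-- finite selection of words and lit directions -/
def T_CI1 : Prop := ∀ (a b : ℂ) (S : Set (ℂ × ℝ)), ‖a‖ = 1 → ‖b‖ = 1 → (∀ p ∈ S, 0 < p.2) →
  (∀ᵐ θ : ℝ, ∃ l : List Bool, ∃ p ∈ S, wd a b l (Complex.exp ((θ : ℂ) * Complex.I)) = p.1) →
  ∀ ε > (0 : ℝ), ∃ T : Finset (List Bool × (ℂ × ℝ)), (∀ t ∈ T, t.2 ∈ S) ∧
    volume {θ : ℝ | θ ∈ Ioo 0 (2 * Real.pi) ∧ ∀ t ∈ T,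
      t.2.2 / 2 ≤ ‖wd a b t.1 (Complex.exp ((θ : ℂ) * Complex.I)) - t.2.1‖} ≤ ENNReal.ofReal ε

/-- one word: low modes control the mass near the preimage of a dark arc -/
def T_CI2 : Prop := ∀ (a b w₀ : ℂ) (ε₀ ε₁ : ℝ) (l : List Bool), ‖a‖ = 1 → ‖b‖ = 1 →
  ‖w₀‖ = 1 → 0 < ε₀ → 0 < ε₁ → ∃ (K : ℕ) (C : ℝ), 0 < C ∧
  ∀ (g g' : ℂ → ℝ) (e : ℝ), Measurable g → Measurable g' → (∀ w, 0 ≤ g w ∧ g w ≤ 1) →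
    (∀ w, 0 ≤ g' w ∧ g' w ≤ 1) → (∀ w, ‖w‖ = 1 → ‖w - w₀‖ < ε₀ → g' w = 0) →
    (∀ k : ℤ, |k| ≤ K → |(md g k * a ^ k).im| ≤ e ∧ |(md g k * b ^ k).im| ≤ e ∧
      ‖md g k - md g' k‖ ≤ e) →
    ∫ θ in {θ : ℝ | θ ∈ Ioo 0 (2 * Real.pi) ∧
      ‖wd a b l (Complex.exp ((θ : ℂ) * Complex.I)) - w₀‖ < ε₀ / 2},
        g (Complex.exp ((θ : ℂ) * Complex.I)) ≤ ε₁ + C * e

/-- the circle lemma -/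
def T_CI : Prop := ∀ (a b : ℂ) (S : Set (ℂ × ℝ)), ‖a‖ = 1 → ‖b‖ = 1 →
  (∀ p ∈ S, ‖p.1‖ = 1 ∧ 0 < p.2) →
  (∀ᵐ θ : ℝ, ∃ l : List Bool, ∃ p ∈ S, wd a b l (Complex.exp ((θ : ℂ) * Complex.I)) = p.1) →
  ∀ ε > (0 : ℝ), ∃ (T : Finset (ℂ × ℝ)) (K : ℕ) (C : ℝ), (∀ p ∈ T, p ∈ S) ∧ 0 < C ∧
  ∀ (g : ℂ → ℝ) (e : ℝ), Measurable g → (∀ w, 0 ≤ g w ∧ g w ≤ 1) → 0 ≤ e →
    (∀ k : ℤ, |k| ≤ K → |(md g k * a ^ k).im| ≤ e ∧ |(md g k * b ^ k).im| ≤ e) →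
    (∀ p ∈ T, ∃ g' : ℂ → ℝ, Measurable g' ∧ (∀ w, 0 ≤ g' w ∧ g' w ≤ 1) ∧
      (∀ w, ‖w‖ = 1 → ‖w - p.1‖ < p.2 → g' w = 0) ∧
      ∀ k : ℤ, |k| ≤ K → ‖md g k - md g' k‖ ≤ e) →
    av g ≤ ε + C * e

/-- few directions make a small angle with a line -/
def T_ARC : Prop := ∀ (a : ℂ) (t : ℝ) (g : ℂ → ℝ), ‖a‖ = 1 → 0 ≤ t → Measurable g →
  (∀ w, 0 ≤ g w ∧ g w ≤ 1) → (∀ w, ‖w‖ = 1 → t < |cr a w| → g w = 0) → av g ≤ t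

/-! ## B. The mollifier -/

def T_CH : Prop := ContDiff ℝ ∞ bmp ∧ (∀ x, 0 ≤ bmp x ∧ bmp x ≤ 1) ∧
  (∀ x, 1 ≤ ‖x‖ → bmp x = 0) ∧ 0 < ∫ y, bmp y ∧
  ∃ C > (0 : ℝ), ∀ δ > (0 : ℝ), ContDiff ℝ ∞ (chi δ) ∧ HasCompactSupport (chi δ) ∧
    (∀ x, 0 ≤ chi δ x ∧ chi δ x ≤ C / δ ^ 2) ∧ (∀ x, δ ≤ ‖x‖ → chi δ x = 0) ∧
    ∫ x, chi δ x = 1 ∧ (∀ x y, ‖x‖ = ‖y‖ → chi δ x = chi δ y) ∧ Continuous (gchi δ) ∧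
    (∀ x, ‖gchi δ x‖ ≤ C / δ ^ 3) ∧ (∀ x, δ ≤ ‖x‖ → gchi δ x = 0)

/-- elementary properties of the mollification -/
def T_U0 : Prop := ∃ C > (0 : ℝ), ∀ (Φ : ℂ → ℂ → ℝ), Bd Φ → ∀ δ > (0 : ℝ),
  Measurable (Function.uncurry (Ml Φ δ)) ∧ Measurable (Function.uncurry (Nl Φ δ)) ∧
  Measurable (Function.uncurry (Hl Φ δ)) ∧
  ∀ x w, 0 ≤ Ml Φ δ x w ∧ Ml Φ δ x w ≤ 1 ∧ ‖Nl Φ δ x w‖ ≤ C / δ ∧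
    (‖w‖ = 1 → |Hl Φ δ x w| ≤ ‖Nl Φ δ x w‖) ∧
    Ml Φ δ x w ≤ C / δ ^ 2 * ∫ y in ball x δ, Φ y w ∧
    ‖Nl Φ δ x w‖ ≤ C / δ ^ 3 * ∫ y in ball x δ, Φ y w

/-- the modes of the mollification are smooth, with the expected derivatives -/
def T_U1 : Prop := ∀ (Φ : ℂ → ℂ → ℝ), Bd Φ → ∀ δ > (0 : ℝ), ∀ k : ℤ,
  ContDiff ℝ 2 (fun x => md (Ml Φ δ x) k) ∧
  (∀ x, fderiv ℝ (fun x => md (Ml Φ δ x) k) x 1 = md (fun w => (Nl Φ δ x w).re) k) ∧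
  (∀ x, fderiv ℝ (fun x => md (Ml Φ δ x) k) x Complex.I = md (fun w => (Nl Φ δ x w).im) k) ∧
  Continuous (fun x => md (Hl Φ δ x) k) ∧ Continuous (fun x => av (Ml Φ δ x))

/-- invariance makes the gradient orthogonal to the direction -/
def T_U2 : Prop := ∀ (Φ : ℂ → ℂ → ℝ), Bd Φ → ∀ (x₀ : ℂ) (R : ℝ), Inv Φ x₀ R → ∀ δ > (0 : ℝ),
  ∀ x, dist x x₀ + δ < R → ∀ w, ‖w‖ = 1 → Nl Φ δ x w = Complex.I * w * (Hl Φ δ x w : ℂ)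

/-- derivatives of the modes in terms of `h` -/
def T_U3 : Prop := ∀ (Φ : ℂ → ℂ → ℝ), Bd Φ → ∀ (x₀ : ℂ) (R : ℝ), Inv Φ x₀ R → ∀ δ > (0 : ℝ),
  ∀ x, dist x x₀ + δ < R → ∀ k : ℤ,
  fderiv ℝ (fun x => md (Ml Φ δ x) k) x 1 =
    Complex.I / 2 * (md (Hl Φ δ x) (k - 1) - md (Hl Φ δ x) (k + 1)) ∧
  fderiv ℝ (fun x => md (Ml Φ δ x) k) x Complex.I =
    1 / 2 * (md (Hl Φ δ x) (k + 1) + md (Hl Φ δ x) (k - 1))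

/-- mollifications of functions which agree near a point -/
def T_U4 : Prop := ∀ (Φ Ψ : ℂ → ℂ → ℝ) (x₀ : ℂ) (R : ℝ), Agr Φ Ψ x₀ R → ∀ δ > (0 : ℝ), ∀ x,
  dist x x₀ + δ ≤ R → Ml Φ δ x = Ml Ψ δ x ∧ Nl Φ δ x = Nl Ψ δ x ∧ Hl Φ δ x = Hl Ψ δ x

/-- realness on the line of a symmetric function -/
def T_U5 : Prop := ∀ (ι : Type) (P : Polygon ι) (j : ι) (Φ : ℂ → ℂ → ℝ) (x₀ : ℂ) (R : ℝ), Bd Φ →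
  (∀ᵐ y : ℂ, y ∈ ball x₀ R → ∀ w, Φ (P.aff j y) (P.refl j w) = Φ y w) → sg P j x₀ = 0 →
  ∀ δ > (0 : ℝ), ∀ x, dist x x₀ + δ < R → sg P j x = 0 → ∀ k : ℤ,
    (md (Ml Φ δ x) k * P.u j ^ k).im = 0 ∧
    ((starRingEnd ℂ) (md (Ml Φ δ x) k) *
      fderiv ℝ (fun x => md (Ml Φ δ x) k) x (P.u j)).im = 0

/-- local constancy of the chart -/
def T_GL : Prop := ∀ (ι : Type) (D : Dat ι), ∀ δ > (0 : ℝ), ∀ x₀ ∈ D.P.Ω, 8 * δ < D.κ * D.rho x₀ →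
  ∃ s > (0 : ℝ), ∀ x ∈ ball x₀ s, x ∈ D.P.Ω ∧ Ml (D.X x) δ x = Ml (D.X x₀) δ x ∧
    Hl (D.X x) δ x = Hl (D.X x₀) δ x

/-- smoothness of the modes on the table -/
def T_SM : Prop := ∀ (ι : Type) (D : Dat ι), ∀ δ > (0 : ℝ), IsOpen (D.OM δ) ∧
  ContinuousOn (D.a δ) (D.OM δ) ∧ (∀ x, 0 ≤ D.a δ x ∧ D.a δ x ≤ 1) ∧
  (∀ x, D.u δ 0 x = (D.a δ x : ℂ)) ∧ ∀ k : ℤ,
  ContDiffOn ℝ 2 (D.u δ k) (D.OM δ) ∧ ContinuousOn (D.h δ k) (D.OM δ) ∧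
  (∀ x, ‖D.u δ k x‖ ≤ 1) ∧
  ∀ x ∈ D.OM δ,
    fderiv ℝ (D.u δ k) x 1 = Complex.I / 2 * (D.h δ (k - 1) x - D.h δ (k + 1) x) ∧
    fderiv ℝ (D.u δ k) x Complex.I = 1 / 2 * (D.h δ (k + 1) x + D.h δ (k - 1) x)

/-- bound of the modes `h_k` -/
def T_SB : Prop := ∃ C > (0 : ℝ), ∀ (ι : Type) (D : Dat ι), ∀ δ > (0 : ℝ), ∀ (k : ℤ) (x : ℂ),
  ‖D.h δ k x‖ ≤ C / δ

/-! ## C. The Green identity -/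

/-- in the plane -/
def T_GR0 : Prop := ∀ (v : ℂ → ℂ) (η : ℂ → ℝ), ContDiff ℝ 2 v → ContDiff ℝ 2 η →
  HasCompactSupport η →
  ∫ x, η x * ((starRingEnd ℂ) (fderiv ℝ v x 1) * fderiv ℝ v x Complex.I).im =
    -(1 / 2) * ∫ x, ((starRingEnd ℂ) (v x) * ((fderiv ℝ η x 1 : ℂ) * fderiv ℝ v x Complex.I -
      (fderiv ℝ η x Complex.I : ℂ) * fderiv ℝ v x 1)).im

/-- in a half plane -/
def T_GRH : Prop := ∀ (v : ℂ → ℂ) (η : ℂ → ℝ) (a p : ℂ), ContDiff ℝ 2 v → ContDiff ℝ 2 η →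
  HasCompactSupport η → ‖a‖ = 1 →
  (∀ x ∈ tsupport η, cr a (x - p) = 0 → ((starRingEnd ℂ) (v x) * fderiv ℝ v x a).im = 0) →
  ∫ x in {x | 0 < cr a (x - p)},
      η x * ((starRingEnd ℂ) (fderiv ℝ v x 1) * fderiv ℝ v x Complex.I).im =
    -(1 / 2) * ∫ x in {x | 0 < cr a (x - p)},
      ((starRingEnd ℂ) (v x) * ((fderiv ℝ η x 1 : ℂ) * fderiv ℝ v x Complex.I -
        (fderiv ℝ η x Complex.I : ℂ) * fderiv ℝ v x 1)).im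

/-- partition of a test function into test functions with small supports -/
def T_PU : Prop := ∀ (η : ℂ → ℝ) (r : ℂ → ℝ), ContDiff ℝ 2 η → HasCompactSupport η →
  (∀ x ∈ tsupport η, 0 < r x) → ∃ (n : ℕ) (c : Fin n → ℂ) (g : Fin n → ℂ → ℝ),
    (∀ i, c i ∈ tsupport η ∧ ContDiff ℝ 2 (g i) ∧ tsupport (g i) ⊆ ball (c i) (r (c i)) ∧
      tsupport (g i) ⊆ tsupport η) ∧ ∀ x, η x = ∑ i, g i x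

/-- interior points -/
def T_GI : Prop := ∀ (ι : Type) (D : Dat ι), ∀ δ > (0 : ℝ), ∀ x₀ ∈ D.P.Ω,
  9 * δ < D.κ * D.rho x₀ → ∀ k : ℤ, GreenAt D.P.Ω D.X δ k x₀

/-- points of sides: structure of the table -/
def T_SD0 : Prop := ∀ (ι : Type) [Finite ι] (P : Polygon ι) (j : ι),
  ∀ x ∈ openSegment ℝ (P.p j) (P.q j), ∃ s > (0 : ℝ),
    ((∀ y ∈ ball x s, y ∈ P.Ω ↔ 0 < sg P j y) ∨
      ∃ j', P.p j' = P.q j ∧ P.q j' = P.p j ∧ (∀ y, sg P j' y = -sg P j y) ∧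
        ∀ y ∈ ball x s, y ∈ P.Ω ↔ sg P j y ≠ 0)

/-- points of sides -/
def T_GS : Prop := ∀ (ι : Type) [Finite ι] (D : Dat ι), ∀ δ > (0 : ℝ), ∀ (j : ι),
  ∀ x₀ ∈ openSegment ℝ (D.P.p j) (D.P.q j), 9 * δ < D.κ * D.rho x₀ → ∀ k : ℤ,
    GreenAt D.P.Ω D.X δ k x₀

/-- the Green identity -/
def T_GRN : Prop := ∀ (ι : Type) [Finite ι] (D : Dat ι), ∀ δ > (0 : ℝ), ∀ (k : ℤ) (η : ℂ → ℝ),
  ContDiff ℝ 2 η → HasCompactSupport η → (∀ x ∈ tsupport η, 9 * δ < D.κ * D.rho x) →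
    GreenId D.P.Ω D.X δ k η

/-! ## D. Energy -/

/-- cutoff functions -/
def T_CUT : Prop := ∀ (B Ω : Set ℂ), B.Finite → B.Nonempty → Bornology.IsBounded Ω → IsOpen Ω →
  ∃ C > (0 : ℝ), ∃ R₀ > (0 : ℝ), ∀ R ∈ Ioo 0 R₀, ∃ η : ℂ → ℝ, ContDiff ℝ 2 η ∧
    HasCompactSupport η ∧ (∀ x, 0 ≤ η x ∧ η x ≤ 1) ∧ (∀ x ∈ tsupport η, R ≤ infDist x B) ∧
    (∀ x ∈ Ω, 2 * R ≤ infDist x B → η x = 1) ∧ (∀ x ∈ Ω, ‖fderiv ℝ η x‖ ≤ C / R) ∧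
    ∀ x ∈ Ω, fderiv ℝ η x ≠ 0 → R ≤ infDist x B ∧ infDist x B ≤ 2 * R

/-- summation along a sequence tending to zero -/
def T_SEQ : Prop := ∀ (H d : ℤ → ℝ) (M : ℝ), (∀ k, 0 ≤ H k) → (∀ k, 0 ≤ d k) →
  Tendsto H cofinite (𝓝 0) → (∀ k, |H (k + 1) - H (k - 1)| ≤ d k) →
  (∀ s : Finset ℤ, ∑ k ∈ s, d k ≤ M) → ∀ m, H m ≤ M

/-- pointwise bound of the sum over the modes -/
def T_PW : Prop := ∀ (ι : Type) (D : Dat ι), ∃ C > (0 : ℝ), ∀ δ > (0 : ℝ), ∀ x ∈ D.OM δ,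
  ∀ s : Finset ℤ,
    ∑ k ∈ s, ‖D.u δ k x‖ * (‖D.h δ (k + 1) x‖ + ‖D.h δ (k - 1) x‖) ≤
      C / δ ^ 3 * ∫ y in ball x δ ∩ D.P.Ω, D.f0 y ∧
    ∑ k ∈ s, ‖D.h δ k x‖ ^ 2 ≤ C / δ ^ 2

/-- one step of the recursion for the energies -/
def T_EN1 : Prop := ∀ (ι : Type) [Finite ι] (D : Dat ι), ∀ δ > (0 : ℝ), ∀ η : ℂ → ℝ,
  ContDiff ℝ 2 η → HasCompactSupport η → (∀ x ∈ tsupport η, 9 * δ < D.κ * D.rho x) → ∀ k : ℤ,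
    |(∫ x in D.P.Ω, η x * ‖D.h δ (k + 1) x‖ ^ 2) - ∫ x in D.P.Ω, η x * ‖D.h δ (k - 1) x‖ ^ 2| ≤
      2 * ∫ x in D.P.Ω, ‖fderiv ℝ η x‖ *
        (‖D.u δ k x‖ * (‖D.h δ (k + 1) x‖ + ‖D.h δ (k - 1) x‖))

/-- the energy inequality -/
def T_EN : Prop := ∀ (ι : Type) [Finite ι] (D : Dat ι), ∃ C > (0 : ℝ), ∃ c > (0 : ℝ),
  ∃ R₀ > (0 : ℝ), ∀ R ∈ Ioo 0 R₀, ∀ δ : ℝ, 0 < δ → δ ≤ c * R → ∀ m : ℤ,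
    ∫ x in D.Out (2 * R), ‖D.h δ m x‖ ^ 2 ≤
      C / (δ * R) * ∫ y in D.Sh (R / 2) (3 * R), D.f0 y

/-- uniform bound of the energies -/
def T_EN0 : Prop := ∀ (ι : Type) [Finite ι] (D : Dat ι), ∃ C > (0 : ℝ), ∃ c > (0 : ℝ),
  ∃ δ₀ > (0 : ℝ), ∀ δ ∈ Ioo 0 δ₀, (∀ x, δ ≤ c * D.rho x → 9 * δ < D.κ * D.rho x) ∧ ∀ m : ℤ,
    ∫ x in D.Out (δ / c), ‖D.h δ m x‖ ^ 2 ≤ C

/-- integrability -/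
def T_INT : Prop := ∀ (ι : Type) (D : Dat ι), MeasurableSet D.P.Ω ∧ volume D.P.Ω < ⊤ ∧
  Measurable D.f0 ∧ (∀ x, 0 ≤ D.f0 x ∧ D.f0 x ≤ 1) ∧ Measurable D.rho ∧
  (∀ x y, |D.rho x - D.rho y| ≤ dist x y) ∧ ∀ δ > (0 : ℝ), ∀ S ⊆ D.OM δ, MeasurableSet S →
    IntegrableOn (D.a δ) S ∧ ∀ k : ℤ, IntegrableOn (fun x => ‖D.h δ k x‖) S ∧
      IntegrableOn (fun x => ‖D.h δ k x‖ ^ 2) S ∧ IntegrableOn (D.u δ k) S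

/-! ## E. Corners -/

/-- near a bad point the table consists of corner sectors -/
def T_COV : Prop := ∀ (ι : Type) [Finite ι] (D : Dat ι), ∃ r₀ > (0 : ℝ), ∀ x ∈ D.P.Ω,
  D.rho x < r₀ → ∃ i j α, D.Cor r₀ i j α ∧ ∃ θ ∈ Ioo 0 α, x = pt D.P j (D.rho x) θ

/-- control of the modes on an arc -/
def T_CA : Prop := ∀ (ι : Type) (D : Dat ι) (r : ℝ) (i j : ι) (α : ℝ), D.Cor r i j α →
  ∀ δ > (0 : ℝ), ∀ s ∈ Ioo 0 r, 9 * δ < D.κ * s → ∀ k : ℤ, ∀ θ ∈ Ioo 0 α,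
    |(D.u δ k (pt D.P j s θ) * D.P.u j ^ k).im| ≤
      D.arc j α δ (k - 1) s + D.arc j α δ (k + 1) s ∧
    |(D.u δ k (pt D.P j s θ) * D.P.u i ^ k).im| ≤
      D.arc j α δ (k - 1) s + D.arc j α δ (k + 1) s ∧
    ∀ θ' ∈ Ioo 0 α, ‖D.u δ k (pt D.P j s θ) - D.u δ k (pt D.P j s θ')‖ ≤
      D.arc j α δ (k - 1) s + D.arc j α δ (k + 1) s

/-- polar coordinates in a sector -/
def T_POL : Prop := ∀ (p a : ℂ) (α r₁ r₂ : ℝ), ‖a‖ = 1 → 0 < α → α ≤ 2 * Real.pi → 0 ≤ r₁ →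
  r₁ ≤ r₂ → ∀ g : ℂ → ENNReal, Measurable g →
    ∫⁻ x in {x | ∃ s ∈ Ioo r₁ r₂, ∃ θ ∈ Ioo 0 α,
      x = p + (s : ℂ) * (Complex.exp ((θ : ℂ) * Complex.I) * a)}, g x =
    ∫⁻ s in Ioo r₁ r₂, ∫⁻ θ in Ioo 0 α,
      g (p + (s : ℂ) * (Complex.exp ((θ : ℂ) * Complex.I) * a)) * ENNReal.ofReal s

/-- bright corners are cool -/
def T_CLB : Prop := ∀ (ι : Type) (D : Dat ι) (r : ℝ) (i j : ι) (α : ℝ), D.Cor r i j α →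
  D.BrightF i j α → D.Cool j α

/-- corners with a cold side are cool -/
def T_CLE : Prop := ∀ (ι : Type) [Finite ι] (D : Dat ι) (r : ℝ) (i j : ι) (α : ℝ),
  D.Cor r i j α → D.Cold i ∨ D.Cold j → D.Cool j α

/-- integrated control near the bad points -/
def T_DEC : Prop := ∀ (ι : Type) [Finite ι] (D : Dat ι), D.Good → ∀ ε > (0 : ℝ),
  ∃ (K : ℕ) (C r₁ c₁ : ℝ), 0 < C ∧ 0 < r₁ ∧ 0 < c₁ ∧ ∀ r ∈ Ioo 0 r₁, ∀ δ : ℝ, 0 < δ →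
    δ ≤ c₁ * r → ∫ x in D.Ann r (16 * r), D.a δ x ≤ ε * r ^ 2 +
      C * r * ∑ m ∈ Finset.Icc (-(K : ℤ)) K, ∫ x in D.Ann r (16 * r), ‖D.h δ m x‖

/-- mollification does not lose mass -/
def T_LOW : Prop := ∀ (ι : Type) (D : Dat ι), ∃ (C c r₁ : ℝ), 0 < C ∧ 0 < c ∧ 0 < r₁ ∧
  ∀ r ∈ Ioo 0 r₁, ∀ δ : ℝ, 0 < δ → δ ≤ c * r →
    ∫ y in D.Sh (2 * r) (12 * r), D.f0 y ≤ C * ∫ x in D.Ann r (16 * r), D.a δ x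

/-! ## F. Pigeonhole and end -/

/-- area near the bad points -/
def T_VOL : Prop := ∀ (ι : Type) (D : Dat ι), ∃ C > (0 : ℝ), ∀ r > (0 : ℝ),
  volume {x | D.rho x ≤ r} ≤ ENNReal.ofReal (C * r ^ 2)

/-- the pigeonhole argument -/
def T_PIG : Prop := ∀ (ι : Type) [Finite ι] (D : Dat ι), D.Good → ∀ ε > (0 : ℝ),
  ∀ r₀ > (0 : ℝ), ∃ r ∈ Ioo 0 r₀, ∫ y in D.Sh (2 * r) (12 * r), D.f0 y ≤ ε * r ^ 2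

/-- the second round -/
def T_SEC : Prop := ∀ (ι : Type) [Finite ι] (D : Dat ι), D.Good → D.Flat

/-- disc integrals of `f0` are locally constant -/
def T_FI1 : Prop := ∀ (ι : Type) (D : Dat ι), D.Flat → ∀ (x₀ : ℂ) (R : ℝ), 0 < R →
  ball x₀ (2 * R) ⊆ D.P.Ω → ∀ x ∈ ball x₀ R, ∀ x' ∈ ball x₀ R, ∀ s ∈ Ioc 0 (R / 2),
    ∫ y in ball x s, D.f0 y = ∫ y in ball x' s, D.f0 y

/-- connectedness -/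
def T_FI2 : Prop := ∀ (ι : Type) (D : Dat ι),
  (∀ (x₀ : ℂ) (R : ℝ), 0 < R → ball x₀ (2 * R) ⊆ D.P.Ω → ∀ x ∈ ball x₀ R, ∀ x' ∈ ball x₀ R,
    ∀ s ∈ Ioc 0 (R / 2), ∫ y in ball x s, D.f0 y = ∫ y in ball x' s, D.f0 y) → D.Small →
  ∀ᵐ x ∂(volume.restrict D.P.Ω), D.f0 x = 0

/-- the analytic theorem -/
def T_AN : Prop := ∀ (ι : Type) [Finite ι] (D : Dat ι), D.Good → D.Small →
  ∀ᵐ x ∂(volume.restrict D.P.Ω), D.f0 x = 0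

end Pool.Agent.H93.EN
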